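import Pool.Agent.helper45.TF.Defs2

set_option linter.all false
set_option autoImplicit false

namespace Pool.Agent.helper45.TF

open Set Topology

section IMM

variable {V : Type} [Fintype V] [DecidableEq V]

theorem IMM_map (p : V → E3) (v : V) {y : V → ℝ} (hy : ∑ w, y w = 1) :
    polyMap p y = p v + ∑ w, y w • (p w - p v) := by
  unfold polyMap
  simp only [smul_sub, Finset.sum_sub_distrib]
  rw [← Finset.sum_smul, hy, one_smul]
  abel

theorem IMM_map3 (p : V → E3) {v a b : V} (hva : v ≠ a) (hvb : v ≠ b) (hab : a ≠ b)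
    {y : V → ℝ} (hy : y ∈ cell ({v, a, b} : Finset V)) :
    polyMap p y = p v + (y a • (p a - p v) + y b • (p b - p v)) := by
  rw [IMM_map p v hy.2.1]
  congr 1
  rw [← Finset.sum_subset (Finset.subset_univ ({v, a, b} : Finset V))]
  · rw [Finset.sum_insert, Finset.sum_insert, Finset.sum_singleton]
    · simp
    · simpa using hab
    · simp [hva, hvb]
  · intro w _ hw
    rw [hy.2.2 w hw, zero_smul]

theorem IMM_sum3 {v a b : V} (hva : v ≠ a) (hvb : v ≠ b) (hab : a ≠ b)
    {y : V → ℝ} (hy : y ∈ cell ({v, a, b} : Finset V)) : y v = 1 - y a - y b := by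
  have h1 := hy.2.1
  rw [← Finset.sum_subset (Finset.subset_univ ({v, a, b} : Finset V))] at h1
  · rw [Finset.sum_insert, Finset.sum_insert, Finset.sum_singleton] at h1
    · linarith
    · simpa using hab
    · simp [hva, hvb]
  · intro w _ hw
    exact hy.2.2 w hw

/-- three vectors with nonzero determinant are independent -/
theorem IMM_det {A B C : E3} (h : det3 A B C ≠ 0) {α β γ : ℝ}
    (h0 : α • A + β • B + γ • C = 0) : α = 0 ∧ β = 0 ∧ γ = 0 := by
  have e : ∀ i : Fin 3, α * A i + β * B i + γ * C i = 0 := by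
    intro i
    have := congrFun (congrArg (fun x : E3 => (x : Fin 3 → ℝ)) h0) i
    simpa using this
  have e0 := e 0
  have e1 := e 1
  have e2 := e 2
  have k1 : α * det3 A B C = 0 := by
    unfold det3
    linear_combination (B 1 * C 2 - B 2 * C 1) * e0 - (B 0 * C 2 - B 2 * C 0) * e1 +
      (B 0 * C 1 - B 1 * C 0) * e2
  have k2 : β * det3 A B C = 0 := by
    unfold det3
    linear_combination (-(A 1 * C 2 - A 2 * C 1)) * e0 + (A 0 * C 2 - A 2 * C 0) * e1 -
      (A 0 * C 1 - A 1 * C 0) * e2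
  have k3 : γ * det3 A B C = 0 := by
    unfold det3
    linear_combination (A 1 * B 2 - A 2 * B 1) * e0 - (A 0 * B 2 - A 2 * B 0) * e1 +
      (A 0 * B 1 - A 1 * B 0) * e2
  exact ⟨(mul_eq_zero.1 k1).resolve_right h, (mul_eq_zero.1 k2).resolve_right h,
    (mul_eq_zero.1 k3).resolve_right h⟩

/-- the other two vertices of a triangle -/
theorem IMM_erase {s : Finset V} (hs : s.card = 3) {v : V} (hv : v ∈ s) :
    ∃ a b, v ≠ a ∧ v ≠ b ∧ a ≠ b ∧ s = {v, a, b} := by
  have h1 : (s.erase v).card = 2 := by rw [Finset.card_erase_of_mem hv, hs]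
  obtain ⟨a, b, hab, h2⟩ := Finset.card_eq_two.1 h1
  have ha : a ∈ s.erase v := by rw [h2]; simp
  have hb : b ∈ s.erase v := by rw [h2]; simp
  refine ⟨a, b, (Finset.ne_of_mem_erase ha).symm, (Finset.ne_of_mem_erase hb).symm, hab, ?_⟩
  rw [← h2, Finset.insert_erase hv]

/-- two triangles with a common edge -/
theorem IMM_edge {s t : Finset V} (hs : s.card = 3) (ht : t.card = 3) (hst : s ≠ t) {v b : V}
    (hvb : v ≠ b) (hv : v ∈ s) (hb : b ∈ s) (hv' : v ∈ t) (hb' : b ∈ t) :
    ∃ a c, v ≠ a ∧ v ≠ c ∧ a ≠ b ∧ b ≠ c ∧ a ≠ c ∧ s = {v, a, b} ∧ t = {v, b, c} := by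
  have third : ∀ r : Finset V, r.card = 3 → v ∈ r → b ∈ r →
      ∃ a, v ≠ a ∧ b ≠ a ∧ r = {v, b, a} := by
    intro r hr h1 h2
    obtain ⟨a, c, hva, hvc, hac, rfl⟩ := IMM_erase hr h1
    have h3 : b = a ∨ b = c := by
      simp only [Finset.mem_insert, Finset.mem_singleton] at h2
      rcases h2 with h2 | h2 | h2
      · exact absurd h2.symm hvb
      · exact Or.inl h2
      · exact Or.inr h2
    rcases h3 with rfl | rfl
    · exact ⟨c, hvc, hac, rfl⟩
    · refine ⟨a, hva, hac.symm, ?_⟩
      rw [Finset.pair_comm]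
  obtain ⟨a, hva, hba, rfl⟩ := third s hs hv hb
  obtain ⟨c, hvc, hbc, rfl⟩ := third t ht hv' hb'
  refine ⟨a, c, hva, hvc, hba.symm, hbc, ?_, ?_, rfl⟩
  · rintro rfl
    exact hst rfl
  · rw [Finset.pair_comm]

theorem IMM_inj (S : ClosedSurface V) (p : V → E3) (hG : GoodStar S p) {s : Finset V}
    (hs : s ∈ S.faces) : InjOn (polyMap p) (cell s) := by
  have hc := S.card_eq s hs
  obtain ⟨v, b, a, hvb, hva, hba, hse⟩ := Finset.card_eq_three.1 hc
  have hv : v ∈ s := by rw [hse]; simp
  have hb : b ∈ s := by rw [hse]; simp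
  -- the neighbouring triangle
  have h2 := S.edge_two v b hvb ⟨s, hs, hv, hb⟩
  have h3 : ∃ t ∈ S.faces.filter (fun s => v ∈ s ∧ b ∈ s), t ≠ s := by
    by_contra hcon
    have hcon' : ∀ t ∈ S.faces.filter (fun s => v ∈ s ∧ b ∈ s), t = s := by
      intro t ht
      by_contra hne
      exact hcon ⟨t, ht, hne⟩
    have : (S.faces.filter (fun s => v ∈ s ∧ b ∈ s)).card ≤ 1 :=
      Finset.card_le_one.2 (fun x hx y hy => (hcon' x hx).trans (hcon' y hy).symm)
    omega
  obtain ⟨t, ht, hts⟩ := h3
  obtain ⟨htf, hvt, hbt⟩ := Finset.mem_filter.1 ht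
  obtain ⟨a', c, hva', hvc, hab', hbc, hac, hs', ht'⟩ :=
    IMM_edge hc (S.card_eq t htf) (Ne.symm hts) hvb hv hb hvt hbt
  have hdet := hG.1 v a' b c hva' hvb hvc hab' hac hbc (hs' ▸ hs) (ht' ▸ htf)
  intro y hy y' hy' hyy
  rw [hs'] at hy hy'
  rw [IMM_map3 p hva' hvb hab' hy, IMM_map3 p hva' hvb hab' hy', add_right_inj] at hyy
  have h0 : (y a' - y' a') • (p a' - p v) + (y b - y' b) • (p b - p v) +
      (0 : ℝ) • (p c - p v) = 0 := by
    rw [zero_smul, add_zero, sub_smul, sub_smul, sub_add_sub_comm, hyy, sub_self]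
  obtain ⟨k1, k2, -⟩ := IMM_det hdet h0
  have k1' : y a' = y' a' := sub_eq_zero.1 k1
  have k2' : y b = y' b := sub_eq_zero.1 k2
  have k3' : y v = y' v := by
    rw [IMM_sum3 hva' hvb hab' hy, IMM_sum3 hva' hvb hab' hy', k1', k2']
  funext w
  by_cases hw : w ∈ ({v, a', b} : Finset V)
  · simp only [Finset.mem_insert, Finset.mem_singleton] at hw
    rcases hw with rfl | rfl | rfl
    · exact k3'
    · exact k1'
    · exact k2'
  · rw [hy.2.2 w hw, hy'.2.2 w hw]

/-- a point of a cell on one side of a plane is the vertex if it is in the plane -/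
theorem IMM_side {s : Finset V} (p : V → E3) {v : V} {N : E3}
    (hN : ∀ w ∈ s, w ≠ v → 0 < inner ℝ N (p w - p v)) {y : V → ℝ} (hy : y ∈ cell s) :
    0 ≤ inner ℝ N (polyMap p y - p v) ∧
      (inner ℝ N (polyMap p y - p v) ≤ 0 → ∀ w, w ≠ v → y w = 0) := by
  have e : inner ℝ N (polyMap p y - p v) = ∑ w, y w * inner ℝ N (p w - p v) := by
    rw [IMM_map p v hy.2.1, add_sub_cancel_left, inner_sum]
    refine Finset.sum_congr rfl (fun w _ => ?_)
    rw [inner_smul_right]
  have hterm : ∀ w ∈ Finset.univ, 0 ≤ y w * inner ℝ N (p w - p v) := by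
    intro w _
    by_cases hwv : w = v
    · rw [hwv]; simp
    · by_cases hws : w ∈ s
      · exact mul_nonneg (hy.1 w) (hN w hws hwv).le
      · rw [hy.2.2 w hws, zero_mul]
  rw [e]
  refine ⟨Finset.sum_nonneg hterm, ?_⟩
  intro hle w hwv
  have h0 : ∑ w, y w * inner ℝ N (p w - p v) = 0 := le_antisymm hle (Finset.sum_nonneg hterm)
  have h1 := (Finset.sum_eq_zero_iff_of_nonneg hterm).1 h0 w (Finset.mem_univ _)
  by_cases hws : w ∈ s
  · exact (mul_eq_zero.1 h1).resolve_right (hN w hws hwv).ne'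
  · exact hy.2.2 w hws

end IMM

theorem IMM : IMM_stmt := by
  intro V _ _ S p hG
  refine ⟨fun s hs => IMM_inj S p hG hs, ?_⟩
  intro x hx
  obtain ⟨s0, hs0, hx0⟩ := hx
  -- a vertex with positive coordinate
  have hex : ∃ v, 0 < x v := by
    by_contra hcon
    push Not at hcon
    have h1 : ∑ v, x v ≤ 0 := Finset.sum_nonpos (fun v _ => hcon v)
    rw [hx0.2.1] at h1
    linarith
  obtain ⟨v, hv⟩ := hex
  refine ⟨{y | 0 < y v}, ?_, ?_⟩
  · exact (isOpen_lt continuous_const (continuous_apply v)).mem_nhds hv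
  · rintro y ⟨hyv, s, hs, hy⟩ y' ⟨hyv', t, ht, hy'⟩ hyy
    have hvs : v ∈ s := by
      by_contra h
      have := hy.2.2 v h
      simp only [Set.mem_setOf_eq] at hyv
      linarith
    have hvt : v ∈ t := by
      by_contra h
      have := hy'.2.2 v h
      simp only [Set.mem_setOf_eq] at hyv'
      linarith
    by_cases hst : s = t
    · subst hst
      exact IMM_inj S p hG hs hy hy' hyy
    · by_cases h1 : s ∩ t = {v}
      · obtain ⟨N, hN1, hN2⟩ := hG.2 v s hs t ht h1
        have a1 := IMM_side p hN1 hy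
        have hN2' : ∀ w ∈ t, w ≠ v → 0 < inner ℝ (-N) (p w - p v) := by
          intro w hw hwv
          rw [inner_neg_left]
          have := hN2 w hw hwv
          linarith
        have a2 := IMM_side p hN2' hy'
        rw [← hyy, inner_neg_left] at a2
        have b1 := a1.2 (by linarith [a2.1])
        have b2 := a2.2 (by linarith [a1.1])
        have key : ∀ z : V → ℝ, ∑ w, z w = 1 → (∀ w, w ≠ v → z w = 0) → z v = 1 := by
          intro z hz hz0
          rw [Finset.sum_eq_single v (fun w _ hw => hz0 w hw)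
            (fun h => absurd (Finset.mem_univ v) h)] at hz
          exact hz
        funext w
        by_cases hw : w = v
        · rw [hw, key y hy.2.1 b1, key y' hy'.2.1 b2]
        · rw [b1 w hw, b2 w hw]
      · -- a common edge
        have h2 : ∃ b ∈ s ∩ t, b ≠ v := by
          by_contra hcon
          apply h1
          ext w
          rw [Finset.mem_singleton]
          constructor
          · intro hw
            by_contra hne
            exact hcon ⟨w, hw, hne⟩
          · rintro rfl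
            exact Finset.mem_inter.2 ⟨hvs, hvt⟩
        obtain ⟨b, hb, hbv⟩ := h2
        obtain ⟨hbs, hbt⟩ := Finset.mem_inter.1 hb
        obtain ⟨a, c, hva, hvc, hab, hbc, hac, hs', ht'⟩ :=
          IMM_edge (S.card_eq s hs) (S.card_eq t ht) hst hbv.symm hvs hbs hvt hbt
        have hdet := hG.1 v a b c hva hbv.symm hvc hab hac hbc (hs' ▸ hs) (ht' ▸ ht)
        rw [hs'] at hy
        rw [ht'] at hy'
        rw [IMM_map3 p hva hbv.symm hab hy, IMM_map3 p hbv.symm hvc hbc hy',
          add_right_inj] at hyy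
        have h0 : (y a) • (p a - p v) + (y b - y' b) • (p b - p v) +
            (-(y' c)) • (p c - p v) = 0 := by
          have := sub_eq_zero.2 hyy
          rw [← this, sub_smul, neg_smul]
          abel
        obtain ⟨k1, k2, k3⟩ := IMM_det hdet h0
        have k2' : y b = y' b := sub_eq_zero.1 k2
        have k3' : y' c = 0 := neg_eq_zero.1 k3
        have hya : y' a = 0 := hy'.2.2 a (by simp [hva.symm, hab, hac])
        have hyc : y c = 0 := hy.2.2 c (by simp [hvc.symm, hbc.symm, hac.symm])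
        have kv : y v = y' v := by
          rw [IMM_sum3 hva hbv.symm hab hy, IMM_sum3 hbv.symm hvc hbc hy', k1, k2', k3']
          ring
        funext w
        by_cases w1 : w = v
        · rw [w1, kv]
        by_cases w2 : w = a
        · rw [w2, k1, hya]
        by_cases w3 : w = b
        · rw [w3, k2']
        by_cases w4 : w = c
        · rw [w4, hyc, k3']
        rw [hy.2.2 w (by simp [w1, w2, w3]), hy'.2.2 w (by simp [w1, w3, w4])]

end Pool.Agent.helper45.TF
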