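import Pool.Agent.helper45.TF.Defs2

set_option linter.all false
set_option autoImplicit false

namespace Pool.Agent.helper45.TF

open Set Topology

theorem PSI_two {V : Type} (c : Sing1 V →₀ ZMod 2) : c + c = 0 := by
  ext γ
  simp only [Finsupp.add_apply, Finsupp.coe_zero, Pi.zero_apply]
  exact CharTwo.add_self_eq_zero _

/-- convexity of half-spaces -/
theorem PSI_conv {h : Set E3} (hh : IsHalfSpace h) {P Q R : E3} (hP : P ∈ h) (hQ : Q ∈ h)
    (hR : R ∈ h) {a b c : ℝ} (ha : 0 ≤ a) (hb : 0 ≤ b) (hc : 0 ≤ c) (habc : a + b + c = 1) :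
    a • P + b • Q + c • R ∈ h := by
  obtain ⟨u, hu, d, h1 | h1⟩ := hh
  · rw [h1] at hP hQ hR ⊢
    simp only [Set.mem_setOf_eq] at hP hQ hR ⊢
    rw [inner_add_right, inner_add_right, inner_smul_right, inner_smul_right, inner_smul_right]
    have e : d = a * d + b * d + c * d := by rw [← add_mul, ← add_mul, habc, one_mul]
    rw [e]
    exact add_le_add (add_le_add (mul_le_mul_of_nonneg_left hP ha)
      (mul_le_mul_of_nonneg_left hQ hb)) (mul_le_mul_of_nonneg_left hR hc)
  · rw [h1] at hP hQ hR ⊢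
    simp only [Set.mem_setOf_eq] at hP hQ hR ⊢
    rw [inner_add_right, inner_add_right, inner_smul_right, inner_smul_right, inner_smul_right]
    have e : d = a * d + b * d + c * d := by rw [← add_mul, ← add_mul, habc, one_mul]
    rw [e]
    have h2 : 0 < a ∨ 0 < b ∨ 0 < c := by
      by_contra hcon
      push Not at hcon
      obtain ⟨h3, h4, h5⟩ := hcon
      linarith
    have k1 := mul_le_mul_of_nonneg_left hP.le ha
    have k2 := mul_le_mul_of_nonneg_left hQ.le hb
    have k3 := mul_le_mul_of_nonneg_left hR.le hc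
    rcases h2 with h2 | h2 | h2
    · have := mul_lt_mul_of_pos_left hP h2
      linarith
    · have := mul_lt_mul_of_pos_left hQ h2
      linarith
    · have := mul_lt_mul_of_pos_left hR h2
      linarith

/-- points of a triangle with vertices in `h` -/
theorem PSI_mem {V : Type} [Fintype V] [DecidableEq V] (S : ClosedSurface V) (p : V → E3)
    {h : Set E3} (hh : IsHalfSpace h) {s : Finset V} (hs : s ∈ S.faces) {u v w : V}
    (hu : u ∈ s) (hv : v ∈ s) (hw : w ∈ s) (pu : p u ∈ h) (pv : p v ∈ h) (pw : p w ∈ h)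
    {a b c : ℝ} (ha : 0 ≤ a) (hb : 0 ≤ b) (hc : 0 ≤ c) (habc : a + b + c = 1) :
    a • vert u + b • vert v + c • vert w ∈ S.pre p h := by
  refine ⟨⟨s, hs, ?_, ?_, ?_⟩, ?_⟩
  · intro x
    simp only [Pi.add_apply, Pi.smul_apply, vert, smul_eq_mul]
    refine add_nonneg (add_nonneg (mul_nonneg ha ?_) (mul_nonneg hb ?_)) (mul_nonneg hc ?_) <;>
      split_ifs <;> norm_num
  · simp only [Pi.add_apply, Pi.smul_apply, vert, smul_eq_mul]
    rw [Finset.sum_add_distrib, Finset.sum_add_distrib, ← Finset.mul_sum, ← Finset.mul_sum,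
      ← Finset.mul_sum]
    simp [habc]
  · intro x hx
    have h1 : x ≠ u := fun e => hx (e ▸ hu)
    have h2 : x ≠ v := fun e => hx (e ▸ hv)
    have h3 : x ≠ w := fun e => hx (e ▸ hw)
    simp [vert, h1, h2, h3]
  · have e : polyMap p (a • vert u + b • vert v + c • vert w) = a • p u + b • p v + c • p w := by
      unfold polyMap
      simp only [Pi.add_apply, Pi.smul_apply, vert, smul_eq_mul, add_smul,
        Finset.sum_add_distrib]
      simp
    rw [e]
    exact PSI_conv hh pu pv pw ha hb hc habc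

theorem PSI_eps {V : Type} [DecidableEq V] {u v w : V} (huv : u ≠ v) (huw : u ≠ w)
    (hvw : v ≠ w) : epsC ({u, v, w} : Finset V) =
      Finsupp.single s(u, v) 1 + Finsupp.single s(u, w) 1 + Finsupp.single s(v, w) 1 := by
  have e1 : ({u, v, w} : Finset V).sym2.filter (fun e => ¬ e.IsDiag) =
      {s(u, v), s(u, w), s(v, w)} := by
    ext e
    induction e with
    | h a b =>
      simp only [Finset.mem_filter, Finset.mk_mem_sym2_iff, Finset.mem_insert,
        Finset.mem_singleton, Sym2.isDiag_iff_proj_eq, Sym2.eq_iff]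
      constructor
      · rintro ⟨⟨ha, hb⟩, hab⟩
        rcases ha with rfl | rfl | rfl <;> rcases hb with rfl | rfl | rfl <;> simp_all
      · rintro ((⟨rfl, rfl⟩ | ⟨rfl, rfl⟩) | (⟨rfl, rfl⟩ | ⟨rfl, rfl⟩) |
          (⟨rfl, rfl⟩ | ⟨rfl, rfl⟩)) <;> simp_all [eq_comm]
  unfold epsC
  rw [e1, Finset.sum_insert, Finset.sum_insert, Finset.sum_singleton, add_assoc]
  · simp only [Finset.mem_singleton, Sym2.eq_iff]
    tauto
  · simp only [Finset.mem_insert, Finset.mem_singleton, Sym2.eq_iff]
    tauto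

theorem PSI (hB : BIN_stmt) (hT : TR_stmt) : PSI_stmt := by
  intro V _ _ S p h hh
  classical
  obtain ⟨b0, badd, bsum, bsmul, bdbl⟩ := hB V (S.pre p h)
  set Ψ : (Sym2 V →₀ ZMod 2) →ₗ[ZMod 2] (Sing1 V →₀ ZMod 2) :=
    Finsupp.lmapDomain (ZMod 2) (ZMod 2)
      (fun e : Sym2 V => segPath (vert (Quot.out e).1) (vert (Quot.out e).2)) with hΨ
  have hΨs : ∀ e : Sym2 V, Ψ (Finsupp.single e 1) =
      Finsupp.single (segPath (vert (Quot.out e).1) (vert (Quot.out e).2)) 1 := by
    intro e
    simp [hΨ, Finsupp.lmapDomain, Finsupp.mapDomain_single]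
  -- constant paths
  have hconst : ∀ u, (∃ s ∈ S.faces, u ∈ s) → p u ∈ h →
      BoundsIn (S.pre p h) (Finsupp.single (segPath (vert u) (vert u)) 1) := by
    rintro u ⟨s, hs, hu⟩ pu
    have h1 := hT V (S.pre p h) (vert u) (vert u) (vert u)
      (fun a b c ha hb hc habc => PSI_mem S p hh hs hu hu hu pu pu pu ha hb hc habc)
    rwa [PSI_two, zero_add] at h1
  -- reversed paths
  have hrev : ∀ u v, S.Adj u v → p u ∈ h → p v ∈ h →
      BoundsIn (S.pre p h) (Finsupp.single (segPath (vert u) (vert v)) 1 +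
        Finsupp.single (segPath (vert v) (vert u)) 1) := by
    rintro u v ⟨s, hs, hu, hv⟩ pu pv
    have h1 := hT V (S.pre p h) (vert u) (vert v) (vert u)
      (fun a b c ha hb hc habc => PSI_mem S p hh hs hu hv hu pu pv pu ha hb hc habc)
    have h2 := badd _ _ h1 (hconst u ⟨s, hs, hu⟩ pu)
    have e : Finsupp.single (segPath (vert u) (vert v)) (1 : ZMod 2) +
        Finsupp.single (segPath (vert u) (vert u)) 1 +
        Finsupp.single (segPath (vert v) (vert u)) 1 +
        Finsupp.single (segPath (vert u) (vert u)) 1 =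
        (Finsupp.single (segPath (vert u) (vert v)) 1 +
        Finsupp.single (segPath (vert v) (vert u)) 1) +
        (Finsupp.single (segPath (vert u) (vert u)) 1 +
        Finsupp.single (segPath (vert u) (vert u)) 1) := by abel
    rw [e, PSI_two, add_zero] at h2
    exact h2
  have hfirst : ∀ u v, S.Adj u v → p u ∈ h → p v ∈ h →
      BoundsIn (S.pre p h) (Finsupp.single (segPath (vert u) (vert v)) 1 + Ψ (edgeC u v)) := by
    rintro u v huv pu pv
    by_cases he : u = v
    · subst he
      obtain ⟨s, hs, hu, -⟩ := huv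
      rw [edgeC, if_pos rfl, map_zero, add_zero]
      exact hconst u ⟨s, hs, hu⟩ pu
    · rw [edgeC, if_neg he, hΨs]
      have hout : s((Quot.out s(u, v)).1, (Quot.out s(u, v)).2) = s(u, v) := by
        exact Quot.out_eq s(u, v)
      rcases Sym2.eq_iff.1 hout with ⟨h1, h2⟩ | ⟨h1, h2⟩
      · rw [h1, h2, PSI_two]
        exact b0
      · rw [h1, h2]
        exact hrev u v huv pu pv
  refine ⟨Ψ, hfirst, ?_⟩
  intro x hx
  refine Submodule.span_induction (p := fun x _ => BoundsIn (S.pre p h) (Ψ x)) ?_ ?_ ?_ ?_ hx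
  · rintro x ⟨s, hs, hsA, rfl⟩
    obtain ⟨u, v, w, huv, huw, hvw, rfl⟩ := Finset.card_eq_three.1 (S.card_eq s hs)
    have mu : u ∈ ({u, v, w} : Finset V) := by simp
    have mv : v ∈ ({u, v, w} : Finset V) := by simp
    have mw : w ∈ ({u, v, w} : Finset V) := by simp
    have pu : p u ∈ h := hsA u mu
    have pv : p v ∈ h := hsA v mv
    have pw : p w ∈ h := hsA w mw
    have h1 := hT V (S.pre p h) (vert u) (vert v) (vert w)
      (fun a b c ha hb hc habc => PSI_mem S p hh hs mu mv mw pu pv pw ha hb hc habc)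
    have k1 := hfirst u v ⟨_, hs, mu, mv⟩ pu pv
    have k2 := hfirst u w ⟨_, hs, mu, mw⟩ pu pw
    have k3 := hfirst v w ⟨_, hs, mv, mw⟩ pv pw
    have k := badd _ _ (badd _ _ (badd _ _ k1 k2) k3) h1
    rw [edgeC, if_neg huv, edgeC, if_neg huw, edgeC, if_neg hvw] at k
    have e : (Finsupp.single (segPath (vert u) (vert v)) (1 : ZMod 2) +
        Ψ (Finsupp.single s(u, v) 1) + (Finsupp.single (segPath (vert u) (vert w)) 1 +
        Ψ (Finsupp.single s(u, w) 1)) + (Finsupp.single (segPath (vert v) (vert w)) 1 +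
        Ψ (Finsupp.single s(v, w) 1)) + (Finsupp.single (segPath (vert u) (vert v)) 1 +
        Finsupp.single (segPath (vert u) (vert w)) 1 +
        Finsupp.single (segPath (vert v) (vert w)) 1)) =
        (Ψ (Finsupp.single s(u, v) 1) + Ψ (Finsupp.single s(u, w) 1) +
          Ψ (Finsupp.single s(v, w) 1)) +
        ((Finsupp.single (segPath (vert u) (vert v)) (1 : ZMod 2) +
          Finsupp.single (segPath (vert u) (vert w)) 1 +
          Finsupp.single (segPath (vert v) (vert w)) 1) +
        (Finsupp.single (segPath (vert u) (vert v)) (1 : ZMod 2) +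
          Finsupp.single (segPath (vert u) (vert w)) 1 +
          Finsupp.single (segPath (vert v) (vert w)) 1)) := by abel
    rw [e, PSI_two, add_zero] at k
    rw [PSI_eps huv huw hvw, map_add, map_add]
    exact k
  · rw [map_zero]; exact b0
  · intro x y _ _ hx hy
    rw [map_add]
    exact badd _ _ hx hy
  · intro a x _ hx
    rw [map_smul]
    exact bsmul _ _ hx

end Pool.Agent.helper45.TF
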