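import Pool.Agent.helper45.TF.Defs2

set_option linter.all false
set_option autoImplicit false

namespace Pool.Agent.helper45.TF

open Set Topology

theorem SQ_mem1 (x : D2) : (x : Fin 3 → ℝ) 1 + (x : Fin 3 → ℝ) 2 ∈ unitInterval := by
  have h0 : 0 ≤ (x : Fin 3 → ℝ) 0 := x.2.1 0
  have h1 : 0 ≤ (x : Fin 3 → ℝ) 1 := x.2.1 1
  have h2 : 0 ≤ (x : Fin 3 → ℝ) 2 := x.2.1 2
  have h3 : ∑ i, (x : Fin 3 → ℝ) i = 1 := x.2.2
  rw [Fin.sum_univ_three] at h3
  exact ⟨add_nonneg h1 h2, by linarith⟩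

theorem SQ_mem2 (x : D2) : (x : Fin 3 → ℝ) 2 ∈ unitInterval := by
  have h0 : 0 ≤ (x : Fin 3 → ℝ) 0 := x.2.1 0
  have h1 : 0 ≤ (x : Fin 3 → ℝ) 1 := x.2.1 1
  have h2 : 0 ≤ (x : Fin 3 → ℝ) 2 := x.2.1 2
  have h3 : ∑ i, (x : Fin 3 → ℝ) i = 1 := x.2.2
  rw [Fin.sum_univ_three] at h3
  exact ⟨h2, by linarith⟩

/-- the lower triangle of the square -/
noncomputable def SQ_phi1 : C(D2, unitInterval × unitInterval) where
  toFun x := (⟨(x : Fin 3 → ℝ) 1 + (x : Fin 3 → ℝ) 2, SQ_mem1 x⟩,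
    ⟨(x : Fin 3 → ℝ) 2, SQ_mem2 x⟩)
  continuous_toFun := by
    refine Continuous.prodMk (Continuous.subtype_mk ?_ _) (Continuous.subtype_mk ?_ _)
    · exact ((continuous_apply 1).comp continuous_subtype_val).add
        ((continuous_apply 2).comp continuous_subtype_val)
    · exact (continuous_apply 2).comp continuous_subtype_val

/-- the upper triangle of the square -/
noncomputable def SQ_phi2 : C(D2, unitInterval × unitInterval) where
  toFun x := ((SQ_phi1 x).2, (SQ_phi1 x).1)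
  continuous_toFun :=
    (continuous_snd.comp SQ_phi1.continuous).prodMk (continuous_fst.comp SQ_phi1.continuous)

theorem SQ_bd2 {V : Type} (τ : Sing2 V) : bd2 (Finsupp.single τ 1) =
    Finsupp.single (τ.comp (edgeMap 0 1)) 1 + Finsupp.single (τ.comp (edgeMap 0 2)) 1
      + Finsupp.single (τ.comp (edgeMap 1 2)) 1 := by
  simp [bd2]

theorem SQ_two {V : Type} (c : Sing1 V →₀ ZMod 2) : c + c = 0 := by
  ext γ
  simp only [Finsupp.add_apply, Finsupp.coe_zero, Pi.zero_apply]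
  exact CharTwo.add_self_eq_zero _

theorem SQ_edge (i j : Fin 3) (s : unitInterval) (k : Fin 3) :
    ((edgeMap i j s : D2) : Fin 3 → ℝ) k =
      (1 - (s : ℝ)) * (if k = i then 1 else 0) + (s : ℝ) * (if k = j then 1 else 0) := rfl

theorem SQ : SQ_stmt := by
  intro V _ _ X H hH b t l r hb ht hl hr
  classical
  set τ1 : Sing2 V := H.comp SQ_phi1 with hτ1
  set τ2 : Sing2 V := H.comp SQ_phi2 with hτ2
  have e1 : τ1.comp (edgeMap 0 1) = b := by
    ext s : 1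
    rw [hb]
    show H (SQ_phi1 (edgeMap 0 1 s)) = _
    congr 1
    refine Prod.ext (Subtype.ext ?_) (Subtype.ext ?_)
    · show ((edgeMap 0 1 s : D2) : Fin 3 → ℝ) 1 + ((edgeMap 0 1 s : D2) : Fin 3 → ℝ) 2 = _
      simp [SQ_edge]
    · show ((edgeMap 0 1 s : D2) : Fin 3 → ℝ) 2 = _
      simp [SQ_edge]
  have e2 : τ1.comp (edgeMap 1 2) = r := by
    ext s : 1
    rw [hr]
    show H (SQ_phi1 (edgeMap 1 2 s)) = _
    congr 1
    refine Prod.ext (Subtype.ext ?_) (Subtype.ext ?_)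
    · show ((edgeMap 1 2 s : D2) : Fin 3 → ℝ) 1 + ((edgeMap 1 2 s : D2) : Fin 3 → ℝ) 2 = _
      simp [SQ_edge]
    · show ((edgeMap 1 2 s : D2) : Fin 3 → ℝ) 2 = _
      simp [SQ_edge]
  have e3 : τ2.comp (edgeMap 0 1) = l := by
    ext s : 1
    rw [hl]
    show H (SQ_phi2 (edgeMap 0 1 s)) = _
    congr 1
    refine Prod.ext (Subtype.ext ?_) (Subtype.ext ?_)
    · show ((edgeMap 0 1 s : D2) : Fin 3 → ℝ) 2 = _
      simp [SQ_edge]
    · show ((edgeMap 0 1 s : D2) : Fin 3 → ℝ) 1 + ((edgeMap 0 1 s : D2) : Fin 3 → ℝ) 2 = _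
      simp [SQ_edge]
  have e4 : τ2.comp (edgeMap 1 2) = t := by
    ext s : 1
    rw [ht]
    show H (SQ_phi2 (edgeMap 1 2 s)) = _
    congr 1
    refine Prod.ext (Subtype.ext ?_) (Subtype.ext ?_)
    · show ((edgeMap 1 2 s : D2) : Fin 3 → ℝ) 2 = _
      simp [SQ_edge]
    · show ((edgeMap 1 2 s : D2) : Fin 3 → ℝ) 1 + ((edgeMap 1 2 s : D2) : Fin 3 → ℝ) 2 = _
      simp [SQ_edge]
  have e5 : τ1.comp (edgeMap 0 2) = τ2.comp (edgeMap 0 2) := by
    ext s : 1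
    show H (SQ_phi1 (edgeMap 0 2 s)) = H (SQ_phi2 (edgeMap 0 2 s))
    congr 1
    refine Prod.ext (Subtype.ext ?_) (Subtype.ext ?_)
    · show ((edgeMap 0 2 s : D2) : Fin 3 → ℝ) 1 + ((edgeMap 0 2 s : D2) : Fin 3 → ℝ) 2 =
        ((edgeMap 0 2 s : D2) : Fin 3 → ℝ) 2
      simp [SQ_edge]
    · show ((edgeMap 0 2 s : D2) : Fin 3 → ℝ) 2 =
        ((edgeMap 0 2 s : D2) : Fin 3 → ℝ) 1 + ((edgeMap 0 2 s : D2) : Fin 3 → ℝ) 2
      simp [SQ_edge]
  refine ⟨Finsupp.single τ1 1 + Finsupp.single τ2 1, ?_, ?_⟩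
  · intro τ hτ x
    have h1 := Finsupp.support_add hτ
    rcases Finset.mem_union.1 h1 with h2 | h2
    · have := Finset.mem_singleton.1 (Finsupp.support_single_subset h2)
      rw [this]
      exact hH _
    · have := Finset.mem_singleton.1 (Finsupp.support_single_subset h2)
      rw [this]
      exact hH _
  · rw [map_add, SQ_bd2, SQ_bd2, e1, e2, e3, e4, e5]
    have h2 := SQ_two (Finsupp.single (τ2.comp (edgeMap 0 2)) (1 : ZMod 2))
    calc _ = Finsupp.single b 1 + Finsupp.single t 1 + Finsupp.single l 1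
      + Finsupp.single r 1 + (Finsupp.single (τ2.comp (edgeMap 0 2)) (1 : ZMod 2) +
        Finsupp.single (τ2.comp (edgeMap 0 2)) (1 : ZMod 2)) := by abel
      _ = _ := by rw [h2, add_zero]

end Pool.Agent.helper45.TF
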